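import Pool.Agent.L7h93.FO.Main

/-!
# Curves without separated multiples have only finitely many finite orbits

Let `p` be an irreducible polynomial in `x, y` over an algebraically closed field `K` of
characteristic zero, not in `K[x]` or `K[y]`, and suppose that the field of separated multiples of
`p` is trivial. Then the curve `C` defined by `p` in `ℙ¹ × ℙ¹` has only finitely many finite orbits.

Idea of the proof. All but finitely many orbits avoid infinity and the ramification of the two
projections. Let `S` be such an orbit, which is finite, with the sets of coordinates `A` and `B`.
Then `a(x) = ∏ (x - s)`, `s ∈ A`, and `b(y) = ∏ (y - t)`, `t ∈ B`, have the same zeros on `C`, with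
multiplicity one; the degree `n` of the first projection times the divisor of `b`, and so on, show
that `a₁(x) ^ |S₂| b₂(y) ^ |S₁| / (a₂(x) ^ |S₁| b₁(y) ^ |S₂|)` has neither zeros nor poles for two
such orbits `S₁`, `S₂`: it is a constant, and this is a separated multiple of `p`. So there is at
most one such orbit. (The divisors are replaced by the valuation rings of the function field of `C`
over `K`; an element of all of them is a constant.)
-/

set_option autoImplicit false

namespace Pool.Agent.Results.MP_f5f7dd_ag.FiniteOrbits

open Pool.Agent.L7h93.FO

/-- If the field of separated multiples of `p` is trivial, then the curve of `p` has only finitely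
many finite orbits. -/
theorem result (K : Type*) [Field K] [IsAlgClosed K] [CharZero K]
    (p : MvPolynomial (Fin 2) K) (hp : Irreducible p)
    (hx : p ∉ Algebra.adjoin K {(MvPolynomial.X 0 : MvPolynomial (Fin 2) K)})
    (hy : p ∉ Algebra.adjoin K {(MvPolynomial.X 1 : MvPolynomial (Fin 2) K)})
    (hF : Trivial p) : (finiteOrbits p).Finite :=
  finite_finiteOrbits hp hx hy hF

end Pool.Agent.Results.MP_f5f7dd_ag.FiniteOrbits
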